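import Pool.Agent.H40.InfLogic

set_option autoImplicit false

namespace Pool.Agent.Results.MP_f264ea_lc.Rings

open Pool.Agent.H40.InfLogic

universe u

/-- The residually finite rings are exactly the models of one infinitary sentence, which even
lies in `L_{ω₁,ω}`. -/
theorem result : ∃ φ : Form ringLang Empty, φ.InOmegaOneOmega ∧
    ∀ (M : Type u) [ringLang.Structure M], φ.Realize M Empty.elim ↔ IsResFinRing M :=
  ⟨ringSent, in_ringSent, fun M _ => realize_ringSent M⟩

end Pool.Agent.Results.MP_f264ea_lc.Rings
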